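import Pool.Agent.V5helper37.Ch.Check

/-! # The check of the vertices `4096, …, 8191` -/

set_option autoImplicit false

namespace Pool.Agent.V5helper37.Ch

theorem chk16 : rchk (16 * 256) 256 = true := by decide +kernel

theorem chk17 : rchk (17 * 256) 256 = true := by decide +kernel

theorem chk18 : rchk (18 * 256) 256 = true := by decide +kernel

theorem chk19 : rchk (19 * 256) 256 = true := by decide +kernel

theorem chk20 : rchk (20 * 256) 256 = true := by decide +kernel

theorem chk21 : rchk (21 * 256) 256 = true := by decide +kernel

theorem chk22 : rchk (22 * 256) 256 = true := by decide +kernel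

theorem chk23 : rchk (23 * 256) 256 = true := by decide +kernel

theorem chk24 : rchk (24 * 256) 256 = true := by decide +kernel

theorem chk25 : rchk (25 * 256) 256 = true := by decide +kernel

theorem chk26 : rchk (26 * 256) 256 = true := by decide +kernel

theorem chk27 : rchk (27 * 256) 256 = true := by decide +kernel

theorem chk28 : rchk (28 * 256) 256 = true := by decide +kernel

theorem chk29 : rchk (29 * 256) 256 = true := by decide +kernel

theorem chk30 : rchk (30 * 256) 256 = true := by decide +kernel

theorem chk31 : rchk (31 * 256) 256 = true := by decide +kernel

end Pool.Agent.V5helper37.Ch
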