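import Pool.Agent.V5helper37.Ch.Check

/-! # The check of the vertices `8192, …, 12287` -/

set_option autoImplicit false

namespace Pool.Agent.V5helper37.Ch

theorem chk32 : rchk (32 * 256) 256 = true := by decide +kernel

theorem chk33 : rchk (33 * 256) 256 = true := by decide +kernel

theorem chk34 : rchk (34 * 256) 256 = true := by decide +kernel

theorem chk35 : rchk (35 * 256) 256 = true := by decide +kernel

theorem chk36 : rchk (36 * 256) 256 = true := by decide +kernel

theorem chk37 : rchk (37 * 256) 256 = true := by decide +kernel

theorem chk38 : rchk (38 * 256) 256 = true := by decide +kernel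

theorem chk39 : rchk (39 * 256) 256 = true := by decide +kernel

theorem chk40 : rchk (40 * 256) 256 = true := by decide +kernel

theorem chk41 : rchk (41 * 256) 256 = true := by decide +kernel

theorem chk42 : rchk (42 * 256) 256 = true := by decide +kernel

theorem chk43 : rchk (43 * 256) 256 = true := by decide +kernel

theorem chk44 : rchk (44 * 256) 256 = true := by decide +kernel

theorem chk45 : rchk (45 * 256) 256 = true := by decide +kernel

theorem chk46 : rchk (46 * 256) 256 = true := by decide +kernel

theorem chk47 : rchk (47 * 256) 256 = true := by decide +kernel

end Pool.Agent.V5helper37.Ch
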