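import Pool.Agent.V5helper37.Ch.Check

/-! # The check of the vertices `12288, …, 16383` -/

set_option autoImplicit false

namespace Pool.Agent.V5helper37.Ch

theorem chk48 : rchk (48 * 256) 256 = true := by decide +kernel

theorem chk49 : rchk (49 * 256) 256 = true := by decide +kernel

theorem chk50 : rchk (50 * 256) 256 = true := by decide +kernel

theorem chk51 : rchk (51 * 256) 256 = true := by decide +kernel

theorem chk52 : rchk (52 * 256) 256 = true := by decide +kernel

theorem chk53 : rchk (53 * 256) 256 = true := by decide +kernel

theorem chk54 : rchk (54 * 256) 256 = true := by decide +kernel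

theorem chk55 : rchk (55 * 256) 256 = true := by decide +kernel

theorem chk56 : rchk (56 * 256) 256 = true := by decide +kernel

theorem chk57 : rchk (57 * 256) 256 = true := by decide +kernel

theorem chk58 : rchk (58 * 256) 256 = true := by decide +kernel

theorem chk59 : rchk (59 * 256) 256 = true := by decide +kernel

theorem chk60 : rchk (60 * 256) 256 = true := by decide +kernel

theorem chk61 : rchk (61 * 256) 256 = true := by decide +kernel

theorem chk62 : rchk (62 * 256) 256 = true := by decide +kernel

theorem chk63 : rchk (63 * 256) 256 = true := by decide +kernel

end Pool.Agent.V5helper37.Ch
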