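import Pool.Agent.V5helper37.Ch.Check

/-! # The check of the vertices `16384, …, 20479` -/

set_option autoImplicit false

namespace Pool.Agent.V5helper37.Ch

theorem chk64 : rchk (64 * 256) 256 = true := by decide +kernel

theorem chk65 : rchk (65 * 256) 256 = true := by decide +kernel

theorem chk66 : rchk (66 * 256) 256 = true := by decide +kernel

theorem chk67 : rchk (67 * 256) 256 = true := by decide +kernel

theorem chk68 : rchk (68 * 256) 256 = true := by decide +kernel

theorem chk69 : rchk (69 * 256) 256 = true := by decide +kernel

theorem chk70 : rchk (70 * 256) 256 = true := by decide +kernel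

theorem chk71 : rchk (71 * 256) 256 = true := by decide +kernel

theorem chk72 : rchk (72 * 256) 256 = true := by decide +kernel

theorem chk73 : rchk (73 * 256) 256 = true := by decide +kernel

theorem chk74 : rchk (74 * 256) 256 = true := by decide +kernel

theorem chk75 : rchk (75 * 256) 256 = true := by decide +kernel

theorem chk76 : rchk (76 * 256) 256 = true := by decide +kernel

theorem chk77 : rchk (77 * 256) 256 = true := by decide +kernel

theorem chk78 : rchk (78 * 256) 256 = true := by decide +kernel

theorem chk79 : rchk (79 * 256) 256 = true := by decide +kernel

end Pool.Agent.V5helper37.Ch
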