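import Pool.Agent.V5helper37.Ch.Check

/-! # The check of the vertices `20480, …, 24575` -/

set_option autoImplicit false

namespace Pool.Agent.V5helper37.Ch

theorem chk80 : rchk (80 * 256) 256 = true := by decide +kernel

theorem chk81 : rchk (81 * 256) 256 = true := by decide +kernel

theorem chk82 : rchk (82 * 256) 256 = true := by decide +kernel

theorem chk83 : rchk (83 * 256) 256 = true := by decide +kernel

theorem chk84 : rchk (84 * 256) 256 = true := by decide +kernel

theorem chk85 : rchk (85 * 256) 256 = true := by decide +kernel

theorem chk86 : rchk (86 * 256) 256 = true := by decide +kernel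

theorem chk87 : rchk (87 * 256) 256 = true := by decide +kernel

theorem chk88 : rchk (88 * 256) 256 = true := by decide +kernel

theorem chk89 : rchk (89 * 256) 256 = true := by decide +kernel

theorem chk90 : rchk (90 * 256) 256 = true := by decide +kernel

theorem chk91 : rchk (91 * 256) 256 = true := by decide +kernel

theorem chk92 : rchk (92 * 256) 256 = true := by decide +kernel

theorem chk93 : rchk (93 * 256) 256 = true := by decide +kernel

theorem chk94 : rchk (94 * 256) 256 = true := by decide +kernel

theorem chk95 : rchk (95 * 256) 256 = true := by decide +kernel

end Pool.Agent.V5helper37.Ch
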