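import Pool.Agent.V5helper37.Ch.Check

/-! # The check of the vertices `24576, …, 28671` -/

set_option autoImplicit false

namespace Pool.Agent.V5helper37.Ch

theorem chk96 : rchk (96 * 256) 256 = true := by decide +kernel

theorem chk97 : rchk (97 * 256) 256 = true := by decide +kernel

theorem chk98 : rchk (98 * 256) 256 = true := by decide +kernel

theorem chk99 : rchk (99 * 256) 256 = true := by decide +kernel

theorem chk100 : rchk (100 * 256) 256 = true := by decide +kernel

theorem chk101 : rchk (101 * 256) 256 = true := by decide +kernel

theorem chk102 : rchk (102 * 256) 256 = true := by decide +kernel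

theorem chk103 : rchk (103 * 256) 256 = true := by decide +kernel

theorem chk104 : rchk (104 * 256) 256 = true := by decide +kernel

theorem chk105 : rchk (105 * 256) 256 = true := by decide +kernel

theorem chk106 : rchk (106 * 256) 256 = true := by decide +kernel

theorem chk107 : rchk (107 * 256) 256 = true := by decide +kernel

theorem chk108 : rchk (108 * 256) 256 = true := by decide +kernel

theorem chk109 : rchk (109 * 256) 256 = true := by decide +kernel

theorem chk110 : rchk (110 * 256) 256 = true := by decide +kernel

theorem chk111 : rchk (111 * 256) 256 = true := by decide +kernel

end Pool.Agent.V5helper37.Ch
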