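import Pool.Agent.V5helper37.Ch.Check

/-! # The check of the vertices `28672, …, 32767` -/

set_option autoImplicit false

namespace Pool.Agent.V5helper37.Ch

theorem chk112 : rchk (112 * 256) 256 = true := by decide +kernel

theorem chk113 : rchk (113 * 256) 256 = true := by decide +kernel

theorem chk114 : rchk (114 * 256) 256 = true := by decide +kernel

theorem chk115 : rchk (115 * 256) 256 = true := by decide +kernel

theorem chk116 : rchk (116 * 256) 256 = true := by decide +kernel

theorem chk117 : rchk (117 * 256) 256 = true := by decide +kernel

theorem chk118 : rchk (118 * 256) 256 = true := by decide +kernel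

theorem chk119 : rchk (119 * 256) 256 = true := by decide +kernel

theorem chk120 : rchk (120 * 256) 256 = true := by decide +kernel

theorem chk121 : rchk (121 * 256) 256 = true := by decide +kernel

theorem chk122 : rchk (122 * 256) 256 = true := by decide +kernel

theorem chk123 : rchk (123 * 256) 256 = true := by decide +kernel

theorem chk124 : rchk (124 * 256) 256 = true := by decide +kernel

theorem chk125 : rchk (125 * 256) 256 = true := by decide +kernel

theorem chk126 : rchk (126 * 256) 256 = true := by decide +kernel

theorem chk127 : rchk (127 * 256) 256 = true := by decide +kernel

end Pool.Agent.V5helper37.Ch
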