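import Pool.Agent.V5helper37.Ch.Check

/-! # The check of the vertices `32768, …, 36863` -/

set_option autoImplicit false

namespace Pool.Agent.V5helper37.Ch

theorem chk128 : rchk (128 * 256) 256 = true := by decide +kernel

theorem chk129 : rchk (129 * 256) 256 = true := by decide +kernel

theorem chk130 : rchk (130 * 256) 256 = true := by decide +kernel

theorem chk131 : rchk (131 * 256) 256 = true := by decide +kernel

theorem chk132 : rchk (132 * 256) 256 = true := by decide +kernel

theorem chk133 : rchk (133 * 256) 256 = true := by decide +kernel

theorem chk134 : rchk (134 * 256) 256 = true := by decide +kernel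

theorem chk135 : rchk (135 * 256) 256 = true := by decide +kernel

theorem chk136 : rchk (136 * 256) 256 = true := by decide +kernel

theorem chk137 : rchk (137 * 256) 256 = true := by decide +kernel

theorem chk138 : rchk (138 * 256) 256 = true := by decide +kernel

theorem chk139 : rchk (139 * 256) 256 = true := by decide +kernel

theorem chk140 : rchk (140 * 256) 256 = true := by decide +kernel

theorem chk141 : rchk (141 * 256) 256 = true := by decide +kernel

theorem chk142 : rchk (142 * 256) 256 = true := by decide +kernel

theorem chk143 : rchk (143 * 256) 256 = true := by decide +kernel

end Pool.Agent.V5helper37.Ch
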