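import Pool.Agent.V5helper37.Ch.Part0
import Pool.Agent.V5helper37.Ch.Part1
import Pool.Agent.V5helper37.Ch.Part2
import Pool.Agent.V5helper37.Ch.Part3
import Pool.Agent.V5helper37.Ch.Part4
import Pool.Agent.V5helper37.Ch.Part5
import Pool.Agent.V5helper37.Ch.Part6
import Pool.Agent.V5helper37.Ch.Part7
import Pool.Agent.V5helper37.Ch.Part8

/-! # The check of all vertices -/

set_option autoImplicit false

namespace Pool.Agent.V5helper37.Ch

theorem chkStep {P : Nat → Prop} {k : Nat} (h : ∀ c, c < k → P c) (hk : P k) : ∀ c, c < k + 1 → P c := by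
  intro c hc
  rcases Nat.lt_succ_iff_lt_or_eq.mp hc with h1 | h1
  · exact h c h1
  · exact h1 ▸ hk

theorem chkAll0 : ∀ c, c < 0 → rchk (c * 256) 256 = true := fun c hc => absurd hc (Nat.not_lt_zero c)

theorem chkAll1 : ∀ c, c < 1 → rchk (c * 256) 256 = true := chkStep (P := fun c => rchk (c * 256) 256 = true) chkAll0 chk0

theorem chkAll2 : ∀ c, c < 2 → rchk (c * 256) 256 = true := chkStep (P := fun c => rchk (c * 256) 256 = true) chkAll1 chk1

theorem chkAll3 : ∀ c, c < 3 → rchk (c * 256) 256 = true := chkStep (P := fun c => rchk (c * 256) 256 = true) chkAll2 chk2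

theorem chkAll4 : ∀ c, c < 4 → rchk (c * 256) 256 = true := chkStep (P := fun c => rchk (c * 256) 256 = true) chkAll3 chk3

theorem chkAll5 : ∀ c, c < 5 → rchk (c * 256) 256 = true := chkStep (P := fun c => rchk (c * 256) 256 = true) chkAll4 chk4

theorem chkAll6 : ∀ c, c < 6 → rchk (c * 256) 256 = true := chkStep (P := fun c => rchk (c * 256) 256 = true) chkAll5 chk5

theorem chkAll7 : ∀ c, c < 7 → rchk (c * 256) 256 = true := chkStep (P := fun c => rchk (c * 256) 256 = true) chkAll6 chk6

theorem chkAll8 : ∀ c, c < 8 → rchk (c * 256) 256 = true := chkStep (P := fun c => rchk (c * 256) 256 = true) chkAll7 chk7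

theorem chkAll9 : ∀ c, c < 9 → rchk (c * 256) 256 = true := chkStep (P := fun c => rchk (c * 256) 256 = true) chkAll8 chk8

theorem chkAll10 : ∀ c, c < 10 → rchk (c * 256) 256 = true := chkStep (P := fun c => rchk (c * 256) 256 = true) chkAll9 chk9

theorem chkAll11 : ∀ c, c < 11 → rchk (c * 256) 256 = true := chkStep (P := fun c => rchk (c * 256) 256 = true) chkAll10 chk10

theorem chkAll12 : ∀ c, c < 12 → rchk (c * 256) 256 = true := chkStep (P := fun c => rchk (c * 256) 256 = true) chkAll11 chk11

theorem chkAll13 : ∀ c, c < 13 → rchk (c * 256) 256 = true := chkStep (P := fun c => rchk (c * 256) 256 = true) chkAll12 chk12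

theorem chkAll14 : ∀ c, c < 14 → rchk (c * 256) 256 = true := chkStep (P := fun c => rchk (c * 256) 256 = true) chkAll13 chk13

theorem chkAll15 : ∀ c, c < 15 → rchk (c * 256) 256 = true := chkStep (P := fun c => rchk (c * 256) 256 = true) chkAll14 chk14

theorem chkAll16 : ∀ c, c < 16 → rchk (c * 256) 256 = true := chkStep (P := fun c => rchk (c * 256) 256 = true) chkAll15 chk15

theorem chkAll17 : ∀ c, c < 17 → rchk (c * 256) 256 = true := chkStep (P := fun c => rchk (c * 256) 256 = true) chkAll16 chk16

theorem chkAll18 : ∀ c, c < 18 → rchk (c * 256) 256 = true := chkStep (P := fun c => rchk (c * 256) 256 = true) chkAll17 chk17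

theorem chkAll19 : ∀ c, c < 19 → rchk (c * 256) 256 = true := chkStep (P := fun c => rchk (c * 256) 256 = true) chkAll18 chk18

theorem chkAll20 : ∀ c, c < 20 → rchk (c * 256) 256 = true := chkStep (P := fun c => rchk (c * 256) 256 = true) chkAll19 chk19

theorem chkAll21 : ∀ c, c < 21 → rchk (c * 256) 256 = true := chkStep (P := fun c => rchk (c * 256) 256 = true) chkAll20 chk20

theorem chkAll22 : ∀ c, c < 22 → rchk (c * 256) 256 = true := chkStep (P := fun c => rchk (c * 256) 256 = true) chkAll21 chk21

theorem chkAll23 : ∀ c, c < 23 → rchk (c * 256) 256 = true := chkStep (P := fun c => rchk (c * 256) 256 = true) chkAll22 chk22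

theorem chkAll24 : ∀ c, c < 24 → rchk (c * 256) 256 = true := chkStep (P := fun c => rchk (c * 256) 256 = true) chkAll23 chk23

theorem chkAll25 : ∀ c, c < 25 → rchk (c * 256) 256 = true := chkStep (P := fun c => rchk (c * 256) 256 = true) chkAll24 chk24

theorem chkAll26 : ∀ c, c < 26 → rchk (c * 256) 256 = true := chkStep (P := fun c => rchk (c * 256) 256 = true) chkAll25 chk25

theorem chkAll27 : ∀ c, c < 27 → rchk (c * 256) 256 = true := chkStep (P := fun c => rchk (c * 256) 256 = true) chkAll26 chk26

theorem chkAll28 : ∀ c, c < 28 → rchk (c * 256) 256 = true := chkStep (P := fun c => rchk (c * 256) 256 = true) chkAll27 chk27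

theorem chkAll29 : ∀ c, c < 29 → rchk (c * 256) 256 = true := chkStep (P := fun c => rchk (c * 256) 256 = true) chkAll28 chk28

theorem chkAll30 : ∀ c, c < 30 → rchk (c * 256) 256 = true := chkStep (P := fun c => rchk (c * 256) 256 = true) chkAll29 chk29

theorem chkAll31 : ∀ c, c < 31 → rchk (c * 256) 256 = true := chkStep (P := fun c => rchk (c * 256) 256 = true) chkAll30 chk30

theorem chkAll32 : ∀ c, c < 32 → rchk (c * 256) 256 = true := chkStep (P := fun c => rchk (c * 256) 256 = true) chkAll31 chk31

theorem chkAll33 : ∀ c, c < 33 → rchk (c * 256) 256 = true := chkStep (P := fun c => rchk (c * 256) 256 = true) chkAll32 chk32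

theorem chkAll34 : ∀ c, c < 34 → rchk (c * 256) 256 = true := chkStep (P := fun c => rchk (c * 256) 256 = true) chkAll33 chk33

theorem chkAll35 : ∀ c, c < 35 → rchk (c * 256) 256 = true := chkStep (P := fun c => rchk (c * 256) 256 = true) chkAll34 chk34

theorem chkAll36 : ∀ c, c < 36 → rchk (c * 256) 256 = true := chkStep (P := fun c => rchk (c * 256) 256 = true) chkAll35 chk35

theorem chkAll37 : ∀ c, c < 37 → rchk (c * 256) 256 = true := chkStep (P := fun c => rchk (c * 256) 256 = true) chkAll36 chk36

theorem chkAll38 : ∀ c, c < 38 → rchk (c * 256) 256 = true := chkStep (P := fun c => rchk (c * 256) 256 = true) chkAll37 chk37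

theorem chkAll39 : ∀ c, c < 39 → rchk (c * 256) 256 = true := chkStep (P := fun c => rchk (c * 256) 256 = true) chkAll38 chk38

theorem chkAll40 : ∀ c, c < 40 → rchk (c * 256) 256 = true := chkStep (P := fun c => rchk (c * 256) 256 = true) chkAll39 chk39

theorem chkAll41 : ∀ c, c < 41 → rchk (c * 256) 256 = true := chkStep (P := fun c => rchk (c * 256) 256 = true) chkAll40 chk40

theorem chkAll42 : ∀ c, c < 42 → rchk (c * 256) 256 = true := chkStep (P := fun c => rchk (c * 256) 256 = true) chkAll41 chk41

theorem chkAll43 : ∀ c, c < 43 → rchk (c * 256) 256 = true := chkStep (P := fun c => rchk (c * 256) 256 = true) chkAll42 chk42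

theorem chkAll44 : ∀ c, c < 44 → rchk (c * 256) 256 = true := chkStep (P := fun c => rchk (c * 256) 256 = true) chkAll43 chk43

theorem chkAll45 : ∀ c, c < 45 → rchk (c * 256) 256 = true := chkStep (P := fun c => rchk (c * 256) 256 = true) chkAll44 chk44

theorem chkAll46 : ∀ c, c < 46 → rchk (c * 256) 256 = true := chkStep (P := fun c => rchk (c * 256) 256 = true) chkAll45 chk45

theorem chkAll47 : ∀ c, c < 47 → rchk (c * 256) 256 = true := chkStep (P := fun c => rchk (c * 256) 256 = true) chkAll46 chk46

theorem chkAll48 : ∀ c, c < 48 → rchk (c * 256) 256 = true := chkStep (P := fun c => rchk (c * 256) 256 = true) chkAll47 chk47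

theorem chkAll49 : ∀ c, c < 49 → rchk (c * 256) 256 = true := chkStep (P := fun c => rchk (c * 256) 256 = true) chkAll48 chk48

theorem chkAll50 : ∀ c, c < 50 → rchk (c * 256) 256 = true := chkStep (P := fun c => rchk (c * 256) 256 = true) chkAll49 chk49

theorem chkAll51 : ∀ c, c < 51 → rchk (c * 256) 256 = true := chkStep (P := fun c => rchk (c * 256) 256 = true) chkAll50 chk50

theorem chkAll52 : ∀ c, c < 52 → rchk (c * 256) 256 = true := chkStep (P := fun c => rchk (c * 256) 256 = true) chkAll51 chk51

theorem chkAll53 : ∀ c, c < 53 → rchk (c * 256) 256 = true := chkStep (P := fun c => rchk (c * 256) 256 = true) chkAll52 chk52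

theorem chkAll54 : ∀ c, c < 54 → rchk (c * 256) 256 = true := chkStep (P := fun c => rchk (c * 256) 256 = true) chkAll53 chk53

theorem chkAll55 : ∀ c, c < 55 → rchk (c * 256) 256 = true := chkStep (P := fun c => rchk (c * 256) 256 = true) chkAll54 chk54

theorem chkAll56 : ∀ c, c < 56 → rchk (c * 256) 256 = true := chkStep (P := fun c => rchk (c * 256) 256 = true) chkAll55 chk55

theorem chkAll57 : ∀ c, c < 57 → rchk (c * 256) 256 = true := chkStep (P := fun c => rchk (c * 256) 256 = true) chkAll56 chk56

theorem chkAll58 : ∀ c, c < 58 → rchk (c * 256) 256 = true := chkStep (P := fun c => rchk (c * 256) 256 = true) chkAll57 chk57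

theorem chkAll59 : ∀ c, c < 59 → rchk (c * 256) 256 = true := chkStep (P := fun c => rchk (c * 256) 256 = true) chkAll58 chk58

theorem chkAll60 : ∀ c, c < 60 → rchk (c * 256) 256 = true := chkStep (P := fun c => rchk (c * 256) 256 = true) chkAll59 chk59

theorem chkAll61 : ∀ c, c < 61 → rchk (c * 256) 256 = true := chkStep (P := fun c => rchk (c * 256) 256 = true) chkAll60 chk60

theorem chkAll62 : ∀ c, c < 62 → rchk (c * 256) 256 = true := chkStep (P := fun c => rchk (c * 256) 256 = true) chkAll61 chk61

theorem chkAll63 : ∀ c, c < 63 → rchk (c * 256) 256 = true := chkStep (P := fun c => rchk (c * 256) 256 = true) chkAll62 chk62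

theorem chkAll64 : ∀ c, c < 64 → rchk (c * 256) 256 = true := chkStep (P := fun c => rchk (c * 256) 256 = true) chkAll63 chk63

theorem chkAll65 : ∀ c, c < 65 → rchk (c * 256) 256 = true := chkStep (P := fun c => rchk (c * 256) 256 = true) chkAll64 chk64

theorem chkAll66 : ∀ c, c < 66 → rchk (c * 256) 256 = true := chkStep (P := fun c => rchk (c * 256) 256 = true) chkAll65 chk65

theorem chkAll67 : ∀ c, c < 67 → rchk (c * 256) 256 = true := chkStep (P := fun c => rchk (c * 256) 256 = true) chkAll66 chk66

theorem chkAll68 : ∀ c, c < 68 → rchk (c * 256) 256 = true := chkStep (P := fun c => rchk (c * 256) 256 = true) chkAll67 chk67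

theorem chkAll69 : ∀ c, c < 69 → rchk (c * 256) 256 = true := chkStep (P := fun c => rchk (c * 256) 256 = true) chkAll68 chk68

theorem chkAll70 : ∀ c, c < 70 → rchk (c * 256) 256 = true := chkStep (P := fun c => rchk (c * 256) 256 = true) chkAll69 chk69

theorem chkAll71 : ∀ c, c < 71 → rchk (c * 256) 256 = true := chkStep (P := fun c => rchk (c * 256) 256 = true) chkAll70 chk70

theorem chkAll72 : ∀ c, c < 72 → rchk (c * 256) 256 = true := chkStep (P := fun c => rchk (c * 256) 256 = true) chkAll71 chk71

theorem chkAll73 : ∀ c, c < 73 → rchk (c * 256) 256 = true := chkStep (P := fun c => rchk (c * 256) 256 = true) chkAll72 chk72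

theorem chkAll74 : ∀ c, c < 74 → rchk (c * 256) 256 = true := chkStep (P := fun c => rchk (c * 256) 256 = true) chkAll73 chk73

theorem chkAll75 : ∀ c, c < 75 → rchk (c * 256) 256 = true := chkStep (P := fun c => rchk (c * 256) 256 = true) chkAll74 chk74

theorem chkAll76 : ∀ c, c < 76 → rchk (c * 256) 256 = true := chkStep (P := fun c => rchk (c * 256) 256 = true) chkAll75 chk75

theorem chkAll77 : ∀ c, c < 77 → rchk (c * 256) 256 = true := chkStep (P := fun c => rchk (c * 256) 256 = true) chkAll76 chk76

theorem chkAll78 : ∀ c, c < 78 → rchk (c * 256) 256 = true := chkStep (P := fun c => rchk (c * 256) 256 = true) chkAll77 chk77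

theorem chkAll79 : ∀ c, c < 79 → rchk (c * 256) 256 = true := chkStep (P := fun c => rchk (c * 256) 256 = true) chkAll78 chk78

theorem chkAll80 : ∀ c, c < 80 → rchk (c * 256) 256 = true := chkStep (P := fun c => rchk (c * 256) 256 = true) chkAll79 chk79

theorem chkAll81 : ∀ c, c < 81 → rchk (c * 256) 256 = true := chkStep (P := fun c => rchk (c * 256) 256 = true) chkAll80 chk80

theorem chkAll82 : ∀ c, c < 82 → rchk (c * 256) 256 = true := chkStep (P := fun c => rchk (c * 256) 256 = true) chkAll81 chk81

theorem chkAll83 : ∀ c, c < 83 → rchk (c * 256) 256 = true := chkStep (P := fun c => rchk (c * 256) 256 = true) chkAll82 chk82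

theorem chkAll84 : ∀ c, c < 84 → rchk (c * 256) 256 = true := chkStep (P := fun c => rchk (c * 256) 256 = true) chkAll83 chk83

theorem chkAll85 : ∀ c, c < 85 → rchk (c * 256) 256 = true := chkStep (P := fun c => rchk (c * 256) 256 = true) chkAll84 chk84

theorem chkAll86 : ∀ c, c < 86 → rchk (c * 256) 256 = true := chkStep (P := fun c => rchk (c * 256) 256 = true) chkAll85 chk85

theorem chkAll87 : ∀ c, c < 87 → rchk (c * 256) 256 = true := chkStep (P := fun c => rchk (c * 256) 256 = true) chkAll86 chk86

theorem chkAll88 : ∀ c, c < 88 → rchk (c * 256) 256 = true := chkStep (P := fun c => rchk (c * 256) 256 = true) chkAll87 chk87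

theorem chkAll89 : ∀ c, c < 89 → rchk (c * 256) 256 = true := chkStep (P := fun c => rchk (c * 256) 256 = true) chkAll88 chk88

theorem chkAll90 : ∀ c, c < 90 → rchk (c * 256) 256 = true := chkStep (P := fun c => rchk (c * 256) 256 = true) chkAll89 chk89

theorem chkAll91 : ∀ c, c < 91 → rchk (c * 256) 256 = true := chkStep (P := fun c => rchk (c * 256) 256 = true) chkAll90 chk90

theorem chkAll92 : ∀ c, c < 92 → rchk (c * 256) 256 = true := chkStep (P := fun c => rchk (c * 256) 256 = true) chkAll91 chk91

theorem chkAll93 : ∀ c, c < 93 → rchk (c * 256) 256 = true := chkStep (P := fun c => rchk (c * 256) 256 = true) chkAll92 chk92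

theorem chkAll94 : ∀ c, c < 94 → rchk (c * 256) 256 = true := chkStep (P := fun c => rchk (c * 256) 256 = true) chkAll93 chk93

theorem chkAll95 : ∀ c, c < 95 → rchk (c * 256) 256 = true := chkStep (P := fun c => rchk (c * 256) 256 = true) chkAll94 chk94

theorem chkAll96 : ∀ c, c < 96 → rchk (c * 256) 256 = true := chkStep (P := fun c => rchk (c * 256) 256 = true) chkAll95 chk95

theorem chkAll97 : ∀ c, c < 97 → rchk (c * 256) 256 = true := chkStep (P := fun c => rchk (c * 256) 256 = true) chkAll96 chk96

theorem chkAll98 : ∀ c, c < 98 → rchk (c * 256) 256 = true := chkStep (P := fun c => rchk (c * 256) 256 = true) chkAll97 chk97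

theorem chkAll99 : ∀ c, c < 99 → rchk (c * 256) 256 = true := chkStep (P := fun c => rchk (c * 256) 256 = true) chkAll98 chk98

theorem chkAll100 : ∀ c, c < 100 → rchk (c * 256) 256 = true := chkStep (P := fun c => rchk (c * 256) 256 = true) chkAll99 chk99

theorem chkAll101 : ∀ c, c < 101 → rchk (c * 256) 256 = true := chkStep (P := fun c => rchk (c * 256) 256 = true) chkAll100 chk100

theorem chkAll102 : ∀ c, c < 102 → rchk (c * 256) 256 = true := chkStep (P := fun c => rchk (c * 256) 256 = true) chkAll101 chk101

theorem chkAll103 : ∀ c, c < 103 → rchk (c * 256) 256 = true := chkStep (P := fun c => rchk (c * 256) 256 = true) chkAll102 chk102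

theorem chkAll104 : ∀ c, c < 104 → rchk (c * 256) 256 = true := chkStep (P := fun c => rchk (c * 256) 256 = true) chkAll103 chk103

theorem chkAll105 : ∀ c, c < 105 → rchk (c * 256) 256 = true := chkStep (P := fun c => rchk (c * 256) 256 = true) chkAll104 chk104

theorem chkAll106 : ∀ c, c < 106 → rchk (c * 256) 256 = true := chkStep (P := fun c => rchk (c * 256) 256 = true) chkAll105 chk105

theorem chkAll107 : ∀ c, c < 107 → rchk (c * 256) 256 = true := chkStep (P := fun c => rchk (c * 256) 256 = true) chkAll106 chk106

theorem chkAll108 : ∀ c, c < 108 → rchk (c * 256) 256 = true := chkStep (P := fun c => rchk (c * 256) 256 = true) chkAll107 chk107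

theorem chkAll109 : ∀ c, c < 109 → rchk (c * 256) 256 = true := chkStep (P := fun c => rchk (c * 256) 256 = true) chkAll108 chk108

theorem chkAll110 : ∀ c, c < 110 → rchk (c * 256) 256 = true := chkStep (P := fun c => rchk (c * 256) 256 = true) chkAll109 chk109

theorem chkAll111 : ∀ c, c < 111 → rchk (c * 256) 256 = true := chkStep (P := fun c => rchk (c * 256) 256 = true) chkAll110 chk110

theorem chkAll112 : ∀ c, c < 112 → rchk (c * 256) 256 = true := chkStep (P := fun c => rchk (c * 256) 256 = true) chkAll111 chk111

theorem chkAll113 : ∀ c, c < 113 → rchk (c * 256) 256 = true := chkStep (P := fun c => rchk (c * 256) 256 = true) chkAll112 chk112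

theorem chkAll114 : ∀ c, c < 114 → rchk (c * 256) 256 = true := chkStep (P := fun c => rchk (c * 256) 256 = true) chkAll113 chk113

theorem chkAll115 : ∀ c, c < 115 → rchk (c * 256) 256 = true := chkStep (P := fun c => rchk (c * 256) 256 = true) chkAll114 chk114

theorem chkAll116 : ∀ c, c < 116 → rchk (c * 256) 256 = true := chkStep (P := fun c => rchk (c * 256) 256 = true) chkAll115 chk115

theorem chkAll117 : ∀ c, c < 117 → rchk (c * 256) 256 = true := chkStep (P := fun c => rchk (c * 256) 256 = true) chkAll116 chk116

theorem chkAll118 : ∀ c, c < 118 → rchk (c * 256) 256 = true := chkStep (P := fun c => rchk (c * 256) 256 = true) chkAll117 chk117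

theorem chkAll119 : ∀ c, c < 119 → rchk (c * 256) 256 = true := chkStep (P := fun c => rchk (c * 256) 256 = true) chkAll118 chk118

theorem chkAll120 : ∀ c, c < 120 → rchk (c * 256) 256 = true := chkStep (P := fun c => rchk (c * 256) 256 = true) chkAll119 chk119

theorem chkAll121 : ∀ c, c < 121 → rchk (c * 256) 256 = true := chkStep (P := fun c => rchk (c * 256) 256 = true) chkAll120 chk120

theorem chkAll122 : ∀ c, c < 122 → rchk (c * 256) 256 = true := chkStep (P := fun c => rchk (c * 256) 256 = true) chkAll121 chk121

theorem chkAll123 : ∀ c, c < 123 → rchk (c * 256) 256 = true := chkStep (P := fun c => rchk (c * 256) 256 = true) chkAll122 chk122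

theorem chkAll124 : ∀ c, c < 124 → rchk (c * 256) 256 = true := chkStep (P := fun c => rchk (c * 256) 256 = true) chkAll123 chk123

theorem chkAll125 : ∀ c, c < 125 → rchk (c * 256) 256 = true := chkStep (P := fun c => rchk (c * 256) 256 = true) chkAll124 chk124

theorem chkAll126 : ∀ c, c < 126 → rchk (c * 256) 256 = true := chkStep (P := fun c => rchk (c * 256) 256 = true) chkAll125 chk125

theorem chkAll127 : ∀ c, c < 127 → rchk (c * 256) 256 = true := chkStep (P := fun c => rchk (c * 256) 256 = true) chkAll126 chk126

theorem chkAll128 : ∀ c, c < 128 → rchk (c * 256) 256 = true := chkStep (P := fun c => rchk (c * 256) 256 = true) chkAll127 chk127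

theorem chkAll129 : ∀ c, c < 129 → rchk (c * 256) 256 = true := chkStep (P := fun c => rchk (c * 256) 256 = true) chkAll128 chk128

theorem chkAll130 : ∀ c, c < 130 → rchk (c * 256) 256 = true := chkStep (P := fun c => rchk (c * 256) 256 = true) chkAll129 chk129

theorem chkAll131 : ∀ c, c < 131 → rchk (c * 256) 256 = true := chkStep (P := fun c => rchk (c * 256) 256 = true) chkAll130 chk130

theorem chkAll132 : ∀ c, c < 132 → rchk (c * 256) 256 = true := chkStep (P := fun c => rchk (c * 256) 256 = true) chkAll131 chk131

theorem chkAll133 : ∀ c, c < 133 → rchk (c * 256) 256 = true := chkStep (P := fun c => rchk (c * 256) 256 = true) chkAll132 chk132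

theorem chkAll134 : ∀ c, c < 134 → rchk (c * 256) 256 = true := chkStep (P := fun c => rchk (c * 256) 256 = true) chkAll133 chk133

theorem chkAll135 : ∀ c, c < 135 → rchk (c * 256) 256 = true := chkStep (P := fun c => rchk (c * 256) 256 = true) chkAll134 chk134

theorem chkAll136 : ∀ c, c < 136 → rchk (c * 256) 256 = true := chkStep (P := fun c => rchk (c * 256) 256 = true) chkAll135 chk135

theorem chkAll137 : ∀ c, c < 137 → rchk (c * 256) 256 = true := chkStep (P := fun c => rchk (c * 256) 256 = true) chkAll136 chk136

theorem chkAll138 : ∀ c, c < 138 → rchk (c * 256) 256 = true := chkStep (P := fun c => rchk (c * 256) 256 = true) chkAll137 chk137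

theorem chkAll139 : ∀ c, c < 139 → rchk (c * 256) 256 = true := chkStep (P := fun c => rchk (c * 256) 256 = true) chkAll138 chk138

theorem chkAll140 : ∀ c, c < 140 → rchk (c * 256) 256 = true := chkStep (P := fun c => rchk (c * 256) 256 = true) chkAll139 chk139

theorem chkAll141 : ∀ c, c < 141 → rchk (c * 256) 256 = true := chkStep (P := fun c => rchk (c * 256) 256 = true) chkAll140 chk140

theorem chkAll142 : ∀ c, c < 142 → rchk (c * 256) 256 = true := chkStep (P := fun c => rchk (c * 256) 256 = true) chkAll141 chk141

theorem chkAll143 : ∀ c, c < 143 → rchk (c * 256) 256 = true := chkStep (P := fun c => rchk (c * 256) 256 = true) chkAll142 chk142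

theorem chkAll144 : ∀ c, c < 144 → rchk (c * 256) 256 = true := chkStep (P := fun c => rchk (c * 256) 256 = true) chkAll143 chk143

end Pool.Agent.V5helper37.Ch
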