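import Mathlib
import Pool.Agent.V5helper37.Ch.All

/-! # A group with the relations of the table is finite -/

set_option autoImplicit false

namespace Pool.Agent.V5helper37.Ch

theorem conj_eq_true {a b : Bool} (h : conj a b = true) : a = true ∧ b = true := by
  cases a
  · exact (Bool.false_ne_true h).elim
  · exact ⟨rfl, h⟩

/-- all vertices pass the check -/
theorem rchk_spec (s : Nat) : ∀ k : Nat, rchk s k = true → ∀ j, j < k → vchk (s + j) = true := by
  intro k
  induction k with
  | zero => intro _ j hj; exact absurd hj (Nat.not_lt_zero j)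
  | succ k ih =>
    intro h j hj
    have h' : conj (vchk (Nat.add s k)) (rchk s k) = true := h
    obtain ⟨h1, h2⟩ := conj_eq_true h'
    rcases Nat.lt_succ_iff_lt_or_eq.mp hj with h3 | h3
    · exact ih h2 j h3
    · subst h3; exact h1

theorem vchk_all (i : Nat) (hi : i < 36864) : vchk i = true := by
  have h := rchk_spec (i / 256 * 256) 256 (chkAll144 (i / 256) (by omega)) (i % 256)
    (Nat.mod_lt _ (by norm_num))
  rwa [Nat.div_add_mod' i 256] at h

theorem echk_all (x i : Nat) (hx : x < 3) (hi : i < 36864) : echk x i = true := by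
  have h := vchk_all i hi
  obtain ⟨h0, h⟩ := conj_eq_true h
  obtain ⟨h1, h2⟩ := conj_eq_true h
  interval_cases x
  · exact h0
  · exact h1
  · exact h2

/-- the properties of an edge -/
theorem echk_spec (x i : Nat) (h : echk x i = true) :
    (i < tg x i ∧ tg x i < 36864 ∧ tg x (tg x i) = i ∧ rk x (tg x i) = rk x i) ∨
    (tg x i ≤ i ∧
      ((tl i = x ∧ tg x i < i) ∨ (i ≤ 1 ∧ tg x i = 0 ∧ x = 2 - i) ∨
        wchk (rk x i) i (tg x i) x (wtable.get (cd x i)) = true)) := by
  unfold echk at h
  cases h1 : Nat.ble (Nat.succ i) (tg x i) with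
  | true =>
    rw [h1] at h
    left
    obtain ⟨h2, h3⟩ := conj_eq_true h
    obtain ⟨h3, h4⟩ := conj_eq_true h3
    exact ⟨Nat.le_of_ble_eq_true h1, Nat.le_of_ble_eq_true h2, Nat.eq_of_beq_eq_true h3,
      Nat.eq_of_beq_eq_true h4⟩
  | false =>
    rw [h1] at h
    right
    refine ⟨?_, ?_⟩
    · by_contra h2
      have h3 : i + 1 ≤ tg x i := by omega
      rw [show Nat.ble (Nat.succ i) (tg x i) = true from Nat.ble_eq_true_of_le h3] at h1
      exact absurd h1 (by decide)
    cases h2 : Nat.beq (cd x i) 126 with
    | true =>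
      rw [h2] at h
      left
      obtain ⟨h3, h4⟩ := conj_eq_true h
      exact ⟨Nat.eq_of_beq_eq_true h3, Nat.le_of_ble_eq_true h4⟩
    | false =>
      rw [h2] at h
      right
      cases h3 : Nat.beq (cd x i) 127 with
      | true =>
        rw [h3] at h
        left
        obtain ⟨h4, h5⟩ := conj_eq_true h
        obtain ⟨h5, h6⟩ := conj_eq_true h5
        exact ⟨Nat.le_of_ble_eq_true h4, Nat.eq_of_beq_eq_true h5, Nat.eq_of_beq_eq_true h6⟩
      | false =>
        rw [h3] at h
        right
        exact h

theorem tg_lt (x i : Nat) (hx : x < 3) (hi : i < 36864) : tg x i < 36864 := by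
  rcases echk_spec x i (echk_all x i hx hi) with h | h
  · exact h.2.1
  · omega

theorem path_cons (m i y : Nat) (w : List Nat) (k : Nat) :
    path m i (y :: w) k = conj (Nat.ble (Nat.succ (rk y k)) m) (path m i w (tg y k)) := rfl

theorem path_nil (m i k : Nat) : path m i [] k = Nat.beq k i := rfl

/-- a word of the table: a predicate which holds for all leaves holds for the value -/
theorem get_mem {α : Type} (p : α → Prop) (t : Tr α)
    (h : @Tr.rec α (fun _ => Prop) (fun v => p v) (fun _ _ a b => a ∧ b) t) (k : Nat) :
    p (t.get k) := by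
  induction t generalizing k with
  | leaf v => exact h
  | node l r ihl ihr =>
    have h' : @Tr.rec α (fun _ => Prop) (fun v => p v) (fun _ _ a b => a ∧ b) l ∧
      @Tr.rec α (fun _ => Prop) (fun v => p v) (fun _ _ a b => a ∧ b) r := h
    have e : (Tr.node l r).get k = @Bool.rec (fun _ => α) (r.get (Nat.div k 2)) (l.get (Nat.div k 2))
      (Nat.beq (Nat.mod k 2) 0) := rfl
    rw [e]
    cases Nat.beq (Nat.mod k 2) 0
    · exact ihr h'.2 _
    · exact ihl h'.1 _

section Group

variable {G : Type*} [Group G] (g : Nat → G)

/-- the coset representatives -/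
noncomputable def rep (i : Nat) : G :=
  if _h : tg (tl i) i < i then rep (tg (tl i) i) * g (tl i) else 1
  termination_by i

theorem rep_of_lt (i : Nat) (h : tg (tl i) i < i) :
    rep g i = rep g (tg (tl i) i) * g (tl i) := by
  rw [rep, dif_pos h]

theorem rep_of_not_lt (i : Nat) (h : ¬ tg (tl i) i < i) : rep g i = 1 := by
  rw [rep, dif_neg h]

theorem facts (H : Subgroup G) (hsq : ∀ x, g x * g x = 1)
    (hwords : ∀ k : Nat, (∀ y ∈ wtable.get k, y < 3) ∧ ((wtable.get k).map g).prod = 1)
    (h01 : g 0 * g 1 ∈ H) (h2 : g 2 ∈ H) :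
    ∀ x i : Nat, x < 3 → i < 36864 → rep g i * g x * (rep g (tg x i))⁻¹ ∈ H := by
  have key : ∀ r x i : Nat, x < 3 → i < 36864 → rk x i = r →
      rep g i * g x * (rep g (tg x i))⁻¹ ∈ H := by
    intro r
    induction r using Nat.strong_induction_on with
    | _ r ih =>
    -- paths
    have hpath : ∀ (i : Nat) (w : List Nat) (k : Nat), k < 36864 → (∀ y ∈ w, y < 3) →
        path r i w k = true → rep g k * (w.map g).prod * (rep g i)⁻¹ ∈ H := by
      intro i w
      induction w with
      | nil =>
        intro k _ _ h
        rw [path_nil] at h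
        have := Nat.eq_of_beq_eq_true h
        subst this
        simp [H.one_mem]
      | cons y w ihw =>
        intro k hk hy h
        rw [path_cons] at h
        obtain ⟨h1, h3⟩ := conj_eq_true h
        have h1' : rk y k < r := Nat.le_of_ble_eq_true h1
        have hy3 : y < 3 := hy y List.mem_cons_self
        have f1 := ih (rk y k) h1' y k hy3 hk rfl
        have f2 := ihw (tg y k) (tg_lt y k hy3 hk) (fun z hz => hy z (List.mem_cons_of_mem _ hz)) h3
        have := H.mul_mem f1 f2
        rw [List.map_cons, List.prod_cons]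
        convert this using 1
        group
    -- backward edges
    have hback : ∀ x i : Nat, x < 3 → i < 36864 → rk x i = r → tg x i ≤ i →
        rep g i * g x * (rep g (tg x i))⁻¹ ∈ H := by
      intro x i hx hi hr hle
      rcases echk_spec x i (echk_all x i hx hi) with h | ⟨_, h | h | h⟩
      · omega
      · obtain ⟨h1, h3⟩ := h
        have h4 : tg (tl i) i < i := by rw [h1]; exact h3
        have h5 := rep_of_lt g i h4
        rw [h1] at h5
        rw [h5]
        have : rep g (tg x i) * g x * g x * (rep g (tg x i))⁻¹ = 1 := by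
          rw [mul_assoc (rep g (tg x i)), hsq, mul_one, mul_inv_cancel]
        rw [this]
        exact H.one_mem
      · obtain ⟨h1, h3, h4⟩ := h
        have e0 : rep g 0 = 1 := rep_of_not_lt g 0 (Nat.not_lt_zero _)
        rw [h3, e0]
        interval_cases i
        · subst h4
          rw [e0]
          simpa using h2
        · subst h4
          have a1 : tl 1 = 0 := by decide +kernel
          have a2 : tg 0 1 = 0 := by decide +kernel
          have h5 := rep_of_lt g 1 (by rw [a1, a2]; exact Nat.one_pos)
          rw [a1, a2, e0] at h5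
          rw [h5]
          simpa using h01
      · obtain ⟨hw3, hw1⟩ := hwords (cd x i)
        revert h hw3 hw1
        cases wtable.get (cd x i) with
        | nil => intro h; exact absurd h (by simp [wchk])
        | cons y w =>
          intro h hw3 hw1
          have h' : conj (Nat.beq y x) (path (rk x i) i w (tg x i)) = true := h
          obtain ⟨h5, h6⟩ := conj_eq_true h'
          have h7 := Nat.eq_of_beq_eq_true h5
          subst h7
          rw [hr] at h6
          have f := hpath i w (tg y i) (tg_lt y i hx hi)
            (fun z hz => hw3 z (List.mem_cons_of_mem _ hz)) h6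
          rw [List.map_cons, List.prod_cons] at hw1
          have h8 : (w.map g).prod = g y := by
            have h9 : (w.map g).prod = (g y)⁻¹ := eq_inv_of_mul_eq_one_right hw1
            rw [h9]
            exact inv_eq_of_mul_eq_one_left (hsq y)
          rw [h8] at f
          have f' := H.inv_mem f
          have h10 : (g y)⁻¹ = g y := inv_eq_of_mul_eq_one_left (hsq y)
          convert f' using 1
          rw [mul_inv_rev, mul_inv_rev, inv_inv, h10, mul_assoc]
    intro x i hx hi hr
    rcases echk_spec x i (echk_all x i hx hi) with h | h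
    · obtain ⟨h1, h3, h4, h5⟩ := h
      have f := hback x (tg x i) hx h3 (h5.trans hr) (by rw [h4]; exact h1.le)
      rw [h4] at f
      have f' := H.inv_mem f
      have h10 : (g x)⁻¹ = g x := inv_eq_of_mul_eq_one_left (hsq x)
      convert f' using 1
      rw [mul_inv_rev, mul_inv_rev, inv_inv, h10, mul_assoc]
    · exact hback x i hx hi hr h.1
  intro x i hx hi
  exact key (rk x i) x i hx hi rfl

/-- **Finiteness.** -/
theorem finite_of_words (H : Subgroup G) (hH : (H : Set G).Finite) (hsq : ∀ x, g x * g x = 1)
    (hwords : ∀ k : Nat, (∀ y ∈ wtable.get k, y < 3) ∧ ((wtable.get k).map g).prod = 1)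
    (h01 : g 0 * g 1 ∈ H) (h2 : g 2 ∈ H)
    (hgen : Subgroup.closure ({g 0, g 1, g 2} : Set G) = ⊤) : Finite G := by
  have hf := facts g H hsq hwords h01 h2
  have hmove : ∀ x i : Nat, x < 3 → i < 36864 → ∃ j < 36864, rep g i * g x * (rep g j)⁻¹ ∈ H :=
    fun x i hx hi => ⟨tg x i, tg_lt x i hx hi, hf x i hx hi⟩
  have hinv : ∀ x, (g x)⁻¹ = g x := fun x => inv_eq_of_mul_eq_one_left (hsq x)
  have key : ∀ y : G, ∀ i : Nat, i < 36864 → ∃ j < 36864, rep g i * y * (rep g j)⁻¹ ∈ H := by
    intro y
    have hy : y ∈ Subgroup.closure ({g 0, g 1, g 2} : Set G) := by rw [hgen]; trivial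
    induction hy using Subgroup.closure_induction with
    | mem z hz =>
      intro i hi
      simp only [Set.mem_insert_iff, Set.mem_singleton_iff] at hz
      rcases hz with h | h | h <;> subst h
      · exact hmove 0 i (by norm_num) hi
      · exact hmove 1 i (by norm_num) hi
      · exact hmove 2 i (by norm_num) hi
    | one => intro i hi; exact ⟨i, hi, by simp [H.one_mem]⟩
    | mul a b _ _ iha ihb =>
      intro i hi
      obtain ⟨j, hj, h1⟩ := iha i hi
      obtain ⟨k, hk, h3⟩ := ihb j hj
      refine ⟨k, hk, ?_⟩
      have := H.mul_mem h1 h3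
      convert this using 1
      group
    | inv a _ iha =>
      intro i hi
      -- the map `i ↦ j` for `a` is injective modulo `H`; use finiteness of the orbit
      by_contra hcon
      push Not at hcon
      choose! f hf1 hf3 using iha
      -- iterates of `f`
      have hit : ∀ n : ℕ, f^[n] i < 36864 ∧ rep g i * a ^ n * (rep g (f^[n] i))⁻¹ ∈ H := by
        intro n
        induction n with
        | zero => exact ⟨hi, by simp [H.one_mem]⟩
        | succ n ihn =>
          rw [Function.iterate_succ', Function.comp_apply]
          refine ⟨hf1 _ ihn.1, ?_⟩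
          have := H.mul_mem ihn.2 (hf3 _ ihn.1)
          convert this using 1
          rw [pow_succ]
          group
      obtain ⟨m, n, hmn, he⟩ : ∃ m n : ℕ, m < n ∧ f^[m] i = f^[n] i := by
        have : ¬ Function.Injective (fun n : ℕ => (⟨f^[n] i, (hit n).1⟩ : Fin 36864)) :=
          not_injective_infinite_finite _
        rw [Function.Injective] at this
        push Not at this
        obtain ⟨m, n, h1, h3⟩ := this
        have h1' : f^[m] i = f^[n] i := by simpa using h1
        rcases lt_or_gt_of_ne h3 with h | h
        · exact ⟨m, n, h, h1'⟩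
        · exact ⟨n, m, h, h1'.symm⟩
      have e1 := (hit m).2
      have e3 := (hit n).2
      rw [he] at e1
      have e4 := H.mul_mem e3 (H.inv_mem e1)
      -- `rep i * a ^ (n - m) * (rep i)⁻¹ ∈ H`
      obtain ⟨d, rfl⟩ : ∃ d, n = m + (d + 1) := ⟨n - m - 1, by omega⟩
      have e5 : rep g i * a ^ (d + 1) * (rep g i)⁻¹ ∈ H := by
        convert e4 using 1
        have : a ^ (m + (d + 1)) = a ^ (d + 1) * a ^ m := by rw [add_comm, pow_add]
        rw [this]
        group
      have e6 := (hit d).2
      have e7 := H.mul_mem (H.inv_mem e5) e6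
      refine hcon (f^[d] i) (hit d).1 ?_
      convert e7 using 1
      rw [pow_succ' a d]
      group
  have hfin : (⋃ j : Fin 36864, (fun h => h * rep g j) '' (H : Set G)).Finite :=
    Set.finite_iUnion fun j => hH.image _
  rw [← Set.finite_univ_iff]
  refine hfin.subset ?_
  intro y _
  obtain ⟨j, hj, h⟩ := key y 0 (by norm_num)
  have e0 : rep g 0 = 1 := rep_of_not_lt g 0 (Nat.not_lt_zero _)
  rw [e0, one_mul] at h
  refine Set.mem_iUnion.mpr ⟨⟨j, hj⟩, _, h, ?_⟩
  simp

end Group

end Pool.Agent.V5helper37.Ch
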