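import Pool.Agent.V5helper37.Ch.Data

/-! # The check of the coset table -/

set_option autoImplicit false

namespace Pool.Agent.V5helper37.Ch

/-- the leaf with index `k` (read in binary, lowest digit first) -/
noncomputable def Tr.get {α : Type} (t : Tr α) : Nat → α :=
  @Tr.rec α (fun _ => Nat → α) (fun v _ => v)
    (fun _ _ gl gr k => @Bool.rec (fun _ => α) (gr (Nat.div k 2)) (gl (Nat.div k 2))
      (Nat.beq (Nat.mod k 2) 0)) t

/-- the entry for vertex `i` and letter `x`, and more -/
noncomputable def ent (x i : Nat) : Nat :=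
  Nat.shiftRight (table.get (Nat.div i 32)) (Nat.add (Nat.mul 84 (Nat.mod i 32)) (Nat.mul 28 x))

/-- the target -/
noncomputable def tg (x i : Nat) : Nat := Nat.land (ent x i) 65535

/-- the rank -/
noncomputable def rk (x i : Nat) : Nat := Nat.land (Nat.shiftRight (ent x i) 16) 31

/-- the witness -/
noncomputable def cd (x i : Nat) : Nat := Nat.land (Nat.shiftRight (ent x i) 21) 127

/-- the letter of the tree edge -/
noncomputable def tl (i : Nat) : Nat :=
  @Bool.rec (fun _ => Nat) (@Bool.rec (fun _ => Nat) 2 1 (Nat.beq (cd 1 i) 126)) 0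
    (Nat.beq (cd 0 i) 126)

/-- conjunction -/
noncomputable def conj (a b : Bool) : Bool := @Bool.rec (fun _ => Bool) false b a

/-- follow the path of `w` from `k`, which should end in `i` and use only edges of rank less
than `m` -/
noncomputable def path (m i : Nat) (w : List Nat) : Nat → Bool :=
  @List.rec Nat (fun _ => Nat → Bool) (fun k => Nat.beq k i)
    (fun y _ ih k => conj (Nat.ble (Nat.succ (rk y k)) m) (ih (tg y k))) w

/-- the check of the word -/
noncomputable def wchk (m i j x : Nat) (w : List Nat) : Bool :=
  @List.rec Nat (fun _ => Bool) false (fun y w _ => conj (Nat.beq y x) (path m i w j)) w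

/-- the check of the edge -/
noncomputable def echk (x i : Nat) : Bool :=
  @Bool.rec (fun _ => Bool)
    -- backward edge or loop
    (@Bool.rec (fun _ => Bool)
      (@Bool.rec (fun _ => Bool)
        (wchk (rk x i) i (tg x i) x (wtable.get (cd x i)))
        (conj (Nat.ble i 1) (conj (Nat.beq (tg x i) 0) (Nat.beq x (Nat.sub 2 i))))
        (Nat.beq (cd x i) 127))
      (conj (Nat.beq (tl i) x) (Nat.ble (Nat.succ (tg x i)) i))
      (Nat.beq (cd x i) 126))
    -- forward edge
    (conj (Nat.ble (Nat.succ (tg x i)) 36864)
      (conj (Nat.beq (tg x (tg x i)) i) (Nat.beq (rk x (tg x i)) (rk x i))))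
    (Nat.ble (Nat.succ i) (tg x i))

/-- the check of the vertex -/
noncomputable def vchk (i : Nat) : Bool := conj (echk 0 i) (conj (echk 1 i) (echk 2 i))

/-- the check of the vertices `s, s + 1, …, s + k - 1` -/
noncomputable def rchk (s k : Nat) : Bool :=
  @Nat.rec (fun _ => Bool) true (fun j ih => conj (vchk (Nat.add s j)) ih) k

end Pool.Agent.V5helper37.Ch
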