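import Pool.Agent.V5helper37.Ch.Check

/-! # The check of the vertices `0, …, 4095` -/

set_option autoImplicit false

namespace Pool.Agent.V5helper37.Ch

theorem chk0 : rchk (0 * 256) 256 = true := by decide +kernel

theorem chk1 : rchk (1 * 256) 256 = true := by decide +kernel

theorem chk2 : rchk (2 * 256) 256 = true := by decide +kernel

theorem chk3 : rchk (3 * 256) 256 = true := by decide +kernel

theorem chk4 : rchk (4 * 256) 256 = true := by decide +kernel

theorem chk5 : rchk (5 * 256) 256 = true := by decide +kernel

theorem chk6 : rchk (6 * 256) 256 = true := by decide +kernel

theorem chk7 : rchk (7 * 256) 256 = true := by decide +kernel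

theorem chk8 : rchk (8 * 256) 256 = true := by decide +kernel

theorem chk9 : rchk (9 * 256) 256 = true := by decide +kernel

theorem chk10 : rchk (10 * 256) 256 = true := by decide +kernel

theorem chk11 : rchk (11 * 256) 256 = true := by decide +kernel

theorem chk12 : rchk (12 * 256) 256 = true := by decide +kernel

theorem chk13 : rchk (13 * 256) 256 = true := by decide +kernel

theorem chk14 : rchk (14 * 256) 256 = true := by decide +kernel

theorem chk15 : rchk (15 * 256) 256 = true := by decide +kernel

end Pool.Agent.V5helper37.Ch
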